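import Mathlib

/-!
Finite selection: from a large weighted double sum to one index with many partners.
-/

namespace Pool.Agent.H38.Pl

/-- Selection of an index with many partners. The weights `b i j` are at most `1` and at most
`4 / (w ‖ζ i - ζ j‖)`. -/
theorem select (K : ℝ) (hK : 1 ≤ K) (A : ℕ) : ∃ C₀ : ℕ, ∀ C : ℕ, C₀ ≤ C →
    ∀ (ι : Type) (S : Finset ι) (D w : ℝ) (c ζ : ι → ℂ) (b : ι → ι → ℝ),
      2 ≤ D → 0 < w → (S.card : ℝ) ≤ K / w → (∀ i ∈ S, ‖c i‖ ≤ K * w) →
      (∀ i ∈ S, ∀ j ∈ S, 0 ≤ b i j ∧ b i j ≤ 1 ∧ b i j * (w * ‖ζ i - ζ j‖) ≤ 4) →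
      1 / D ^ A ≤ ∑ i ∈ S, ∑ j ∈ S, ‖c i‖ * ‖c j‖ * b i j →
      ∃ j ∈ S, w / D ^ C ≤ ‖c j‖ ∧
        1 / (D ^ C * w) ≤ ((S.filter fun i => w / D ^ C ≤ ‖c i‖ ∧
          ‖ζ i - ζ j‖ ≤ D ^ C / w).card : ℝ) := by
  classical
  obtain ⟨k, hk⟩ : ∃ k : ℕ, 12 * K ^ 4 < 2 ^ k := pow_unbounded_of_one_lt _ one_lt_two
  refine ⟨A + k, ?_⟩
  intro C hC ι S D w c ζ b hD hw hcard hc hb hsum
  have hD0 : 0 < D := by linarith
  have hK0 : 0 < K := by linarith
  have hDC : 12 * K ^ 4 * D ^ A ≤ D ^ C := by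
    have h1 : (2:ℝ) ^ k ≤ D ^ k := pow_le_pow_left₀ (by norm_num) hD _
    have h2 : D ^ (A + k) ≤ D ^ C := pow_le_pow_right₀ (by linarith) hC
    calc 12 * K ^ 4 * D ^ A ≤ 2 ^ k * D ^ A :=
          mul_le_mul_of_nonneg_right hk.le (by positivity)
      _ ≤ D ^ k * D ^ A := mul_le_mul_of_nonneg_right h1 (by positivity)
      _ = D ^ (A + k) := by rw [← pow_add, add_comm]
      _ ≤ D ^ C := h2
  have hKpow : K ^ 3 ≤ K ^ 4 := pow_le_pow_right₀ hK (by norm_num)
  -- the set of good pairs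
  set T : Finset (ι × ι) := (S ×ˢ S).filter fun p => w / D ^ C ≤ ‖c p.1‖ ∧ w / D ^ C ≤ ‖c p.2‖ ∧
    ‖ζ p.1 - ζ p.2‖ ≤ D ^ C / w with hT
  -- bound for one pair
  have hpair : ∀ p ∈ S ×ˢ S, ‖c p.1‖ * ‖c p.2‖ * b p.1 p.2
      ≤ (if p ∈ T then K ^ 2 * w ^ 2 else 0) + 4 * K ^ 2 * w ^ 2 / D ^ C := by
    intro p hp
    rw [Finset.mem_product] at hp
    obtain ⟨hp1, hp2⟩ := hp
    obtain ⟨b0, b1, b4⟩ := hb p.1 hp1 p.2 hp2
    have c1 := hc p.1 hp1
    have c2 := hc p.2 hp2
    have hprod : ‖c p.1‖ * ‖c p.2‖ ≤ K ^ 2 * w ^ 2 := by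
      calc _ ≤ (K * w) * (K * w) := mul_le_mul c1 c2 (norm_nonneg _) (by positivity)
        _ = _ := by ring
    by_cases hpT : p ∈ T
    · rw [if_pos hpT]
      have : ‖c p.1‖ * ‖c p.2‖ * b p.1 p.2 ≤ K ^ 2 * w ^ 2 := by
        calc _ ≤ (K ^ 2 * w ^ 2) * 1 := mul_le_mul hprod b1 b0 (by positivity)
          _ = _ := mul_one _
      have h0 : 0 ≤ 4 * K ^ 2 * w ^ 2 / D ^ C := by positivity
      linarith
    · rw [if_neg hpT, zero_add]
      have hpS : p ∈ S ×ˢ S := Finset.mem_product.2 ⟨hp1, hp2⟩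
      have hnot : ¬ (w / D ^ C ≤ ‖c p.1‖ ∧ w / D ^ C ≤ ‖c p.2‖ ∧
          ‖ζ p.1 - ζ p.2‖ ≤ D ^ C / w) := fun h => hpT (Finset.mem_filter.2 ⟨hpS, h⟩)
      have hKw : K * w * (w / D ^ C) ≤ 4 * K ^ 2 * w ^ 2 / D ^ C := by
        rw [← mul_div_assoc]
        apply div_le_div_of_nonneg_right _ (by positivity)
        have : K ≤ 4 * K ^ 2 := by nlinarith
        calc K * w * w = K * w ^ 2 := by ring
          _ ≤ 4 * K ^ 2 * w ^ 2 := mul_le_mul_of_nonneg_right this (by positivity)
      by_cases h1 : w / D ^ C ≤ ‖c p.1‖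
      · by_cases h2 : w / D ^ C ≤ ‖c p.2‖
        · have h3 : D ^ C / w < ‖ζ p.1 - ζ p.2‖ := by
            by_contra h
            exact hnot ⟨h1, h2, not_lt.1 h⟩
          have h4 : b p.1 p.2 ≤ 4 / D ^ C := by
            rw [le_div_iff₀ (by positivity)]
            calc b p.1 p.2 * D ^ C = b p.1 p.2 * (w * (D ^ C / w)) := by
                  field_simp
              _ ≤ b p.1 p.2 * (w * ‖ζ p.1 - ζ p.2‖) := by
                  apply mul_le_mul_of_nonneg_left _ b0
                  exact mul_le_mul_of_nonneg_left h3.le hw.le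
              _ ≤ 4 := b4
          calc _ ≤ (K ^ 2 * w ^ 2) * (4 / D ^ C) := mul_le_mul hprod h4 b0 (by positivity)
            _ = _ := by ring
        · have h3 : ‖c p.2‖ ≤ w / D ^ C := (not_le.1 h2).le
          calc _ ≤ (K * w) * (w / D ^ C) * 1 := by
                apply mul_le_mul _ b1 b0 (by positivity)
                exact mul_le_mul c1 h3 (norm_nonneg _) (by positivity)
            _ = K * w * (w / D ^ C) := mul_one _
            _ ≤ _ := hKw
      · have h3 : ‖c p.1‖ ≤ w / D ^ C := (not_le.1 h1).le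
        calc _ ≤ (w / D ^ C) * (K * w) * 1 := by
              apply mul_le_mul _ b1 b0 (by positivity)
              exact mul_le_mul h3 c2 (norm_nonneg _) (by positivity)
          _ = K * w * (w / D ^ C) := by ring
          _ ≤ _ := hKw
  have hsum2 : ∑ i ∈ S, ∑ j ∈ S, ‖c i‖ * ‖c j‖ * b i j
      ≤ (T.card : ℝ) * (K ^ 2 * w ^ 2) + (S.card : ℝ) ^ 2 * (4 * K ^ 2 * w ^ 2 / D ^ C) := by
    rw [← Finset.sum_product']
    refine (Finset.sum_le_sum hpair).trans (le_of_eq ?_)
    rw [Finset.sum_add_distrib, Finset.sum_const, ← Finset.sum_filter, Finset.sum_const,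
      Finset.card_product, nsmul_eq_mul, nsmul_eq_mul]
    have : (S ×ˢ S).filter (fun p => p ∈ T) = T := by
      rw [Finset.filter_mem_eq_inter]
      exact Finset.inter_eq_right.2 (Finset.filter_subset _ _)
    rw [this]
    push_cast
    ring
  have hcard2 : (S.card : ℝ) ^ 2 * (4 * K ^ 2 * w ^ 2 / D ^ C) ≤ 1 / (3 * D ^ A) := by
    calc (S.card : ℝ) ^ 2 * (4 * K ^ 2 * w ^ 2 / D ^ C)
        ≤ (K / w) ^ 2 * (4 * K ^ 2 * w ^ 2 / D ^ C) := by
          apply mul_le_mul_of_nonneg_right _ (by positivity)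
          exact pow_le_pow_left₀ (by positivity) hcard _
      _ = 4 * K ^ 4 / D ^ C := by field_simp
      _ ≤ 1 / (3 * D ^ A) := by
          rw [div_le_div_iff₀ (by positivity) (by positivity)]
          linarith
  have hTcard : 1 / (2 * D ^ A * K ^ 2 * w ^ 2) ≤ (T.card : ℝ) := by
    have h1 : 1 / D ^ A ≤ (T.card : ℝ) * (K ^ 2 * w ^ 2) + 1 / (3 * D ^ A) :=
      hsum.trans (hsum2.trans (by linarith))
    have h2 : 1 / (2 * D ^ A) ≤ (T.card : ℝ) * (K ^ 2 * w ^ 2) := by
      have h3 : 1 / D ^ A = 1 / (3 * D ^ A) + 2 / (3 * D ^ A) := by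
        field_simp
        norm_num
      have h4 : 1 / (2 * D ^ A) ≤ 2 / (3 * D ^ A) := by
        rw [div_le_div_iff₀ (by positivity) (by positivity)]
        have : 0 < D ^ A := by positivity
        linarith
      linarith
    have hKw2 : 0 < K ^ 2 * w ^ 2 := by positivity
    calc 1 / (2 * D ^ A * K ^ 2 * w ^ 2) = 1 / (2 * D ^ A) / (K ^ 2 * w ^ 2) := by
          field_simp
      _ ≤ (T.card : ℝ) := by rwa [div_le_iff₀ hKw2]
  have hTpos : 0 < T.card := by
    have : (0:ℝ) < T.card := lt_of_lt_of_le (by positivity) hTcard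
    exact_mod_cast this
  -- pigeonhole
  by_contra hcon
  push Not at hcon
  have hfib : (T.card : ℝ) ≤ (S.card : ℝ) * (1 / (D ^ C * w)) := by
    have h1 : T.card = ∑ j ∈ S, (T.filter fun p => p.2 = j).card := by
      refine Finset.card_eq_sum_card_fiberwise ?_
      intro p hp
      exact (Finset.mem_product.1 (Finset.mem_filter.1 hp).1).2
    rw [h1]
    push_cast
    calc ∑ j ∈ S, ((T.filter fun p => p.2 = j).card : ℝ) ≤ ∑ j ∈ S, (1 / (D ^ C * w)) := by
          apply Finset.sum_le_sum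
          intro j hj
          by_cases hcj : w / D ^ C ≤ ‖c j‖
          · refine le_trans ?_ (hcon j hj hcj).le
            have : (T.filter fun p => p.2 = j).card ≤ (S.filter fun i => w / D ^ C ≤ ‖c i‖ ∧
                ‖ζ i - ζ j‖ ≤ D ^ C / w).card := by
              refine Finset.card_le_card_of_injOn Prod.fst ?_ ?_
              · intro p hp
                have hp' := Finset.mem_filter.1 hp
                have hp'' := Finset.mem_filter.1 hp'.1
                rw [Finset.mem_coe, Finset.mem_filter]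
                refine ⟨(Finset.mem_product.1 hp''.1).1, hp''.2.1, ?_⟩
                rw [← hp'.2]
                exact hp''.2.2.2
              · intro p hp q hq hpq
                have h2 := (Finset.mem_filter.1 hp).2
                have h3 := (Finset.mem_filter.1 hq).2
                exact Prod.ext hpq (h2.trans h3.symm)
            exact_mod_cast this
          · have : (T.filter fun p => p.2 = j) = ∅ := by
              rw [Finset.filter_eq_empty_iff]
              intro p hp hpj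
              apply hcj
              rw [← hpj]
              exact (Finset.mem_filter.1 hp).2.2.1
            rw [this]
            simp only [Finset.card_empty, Nat.cast_zero]
            positivity
      _ = _ := by rw [Finset.sum_const, nsmul_eq_mul]
  have hlast : (S.card : ℝ) * (1 / (D ^ C * w)) < 1 / (2 * D ^ A * K ^ 2 * w ^ 2) := by
    calc (S.card : ℝ) * (1 / (D ^ C * w)) ≤ (K / w) * (1 / (D ^ C * w)) :=
          mul_le_mul_of_nonneg_right hcard (by positivity)
      _ = K / (D ^ C * w ^ 2) := by field_simp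
      _ < 1 / (2 * D ^ A * K ^ 2 * w ^ 2) := by
          rw [div_lt_div_iff₀ (by positivity) (by positivity)]
          have h5 : 2 * D ^ A * K ^ 3 < D ^ C := by
            have h6 : 2 * D ^ A * K ^ 3 < 12 * K ^ 4 * D ^ A := by
              have h7 : 0 < D ^ A := by positivity
              have h8 : 2 * K ^ 3 < 12 * K ^ 4 := by
                have : 0 < K ^ 4 := by positivity
                linarith
              nlinarith
            linarith
          calc K * (2 * D ^ A * K ^ 2 * w ^ 2) = (2 * D ^ A * K ^ 3) * w ^ 2 := by ring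
            _ < D ^ C * w ^ 2 := mul_lt_mul_of_pos_right h5 (by positivity)
            _ = 1 * (D ^ C * w ^ 2) := (one_mul _).symm
  linarith

end Pool.Agent.H38.Pl
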